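import Pool.Agent.Helper73.HV.Slc

/-!
# Lower slice bound (module D1 of the project MP_a2630c_HV)

Prekopa-Leindler and a linear shear.
-/

open MeasureTheory Set Metric Real Filter Topology
open scoped RealInnerProductSpace ENNReal
open Pool.Agent.Helper16.Buoy (E)
open Pool.Agent.Helper73.HV

namespace Pool.Agent.Helper84.HV

variable {m : ℕ}

/-! ## Midpoint concave functions -/

theorem nonneg_of_midpoint {φ : ℝ → ℝ} (hc : Continuous φ)
    (hm : ∀ s t, φ s + φ t ≤ 2 * φ ((s + t) / 2)) (h0 : φ 0 = 0) (h1 : φ 1 = 0) {t : ℝ}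
    (ht : t ∈ Icc (0 : ℝ) 1) : 0 ≤ φ t := by
  by_contra hneg
  push Not at hneg
  obtain ⟨s, hs, hmin⟩ := isCompact_Icc.exists_isMinOn (⟨t, ht⟩ : (Icc (0 : ℝ) 1).Nonempty)
    hc.continuousOn
  have hmin' : ∀ x ∈ Icc (0 : ℝ) 1, φ s ≤ φ x := fun x hx => hmin hx
  have hsneg : φ s < 0 := lt_of_le_of_lt (hmin' t ht) hneg
  set S : Set ℝ := Icc (0 : ℝ) 1 ∩ φ ⁻¹' (Iic (φ s)) with hS
  have hScomp : IsCompact S := isCompact_Icc.inter_right (isClosed_Iic.preimage hc)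
  have hSne : S.Nonempty := ⟨s, hs, by simp⟩
  obtain ⟨r, hr, hrmin⟩ := hScomp.exists_isLeast hSne
  have hrφ : φ r = φ s := le_antisymm hr.2 (hmin' r hr.1)
  have hr0 : r ≠ 0 := by
    rintro rfl
    rw [h0] at hrφ; linarith
  have hr1 : r ≠ 1 := by
    rintro rfl
    rw [h1] at hrφ; linarith
  have hrpos : 0 < r := lt_of_le_of_ne hr.1.1 (Ne.symm hr0)
  have hrlt : r < 1 := lt_of_le_of_ne hr.1.2 hr1
  set h := min r (1 - r) with hh
  have hhpos : 0 < h := lt_min hrpos (by linarith)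
  have hh1 : h ≤ r := min_le_left _ _
  have hh2 : h ≤ 1 - r := min_le_right _ _
  have hA : r - h ∈ Icc (0 : ℝ) 1 := ⟨by linarith, by linarith⟩
  have hB : r + h ∈ Icc (0 : ℝ) 1 := ⟨by linarith, by linarith⟩
  have key := hm (r - h) (r + h)
  have e : (r - h + (r + h)) / 2 = r := by ring
  rw [e] at key
  have k1 := hmin' _ hA
  have k2 := hmin' _ hB
  have : φ (r - h) ≤ φ s := by linarith
  have := hrmin ⟨hA, this⟩
  linarith

theorem concaveOn_of_midpoint {V : Type*} [AddCommGroup V] [Module ℝ V] [TopologicalSpace V]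
    [ContinuousAdd V] [ContinuousSMul ℝ V] {L : V → ℝ} (hc : Continuous L)
    (hm : ∀ x y, L x + L y ≤ 2 * L ((1 / 2 : ℝ) • (x + y))) : ConcaveOn ℝ univ L := by
  refine ⟨convex_univ, ?_⟩
  intro x _ y _ p q hp hq hpq
  have hp' : p = 1 - q := by linarith
  subst hp'
  have key := nonneg_of_midpoint
    (φ := fun t => L ((1 - t) • x + t • y) - ((1 - t) * L x + t * L y)) (t := q)
    (by fun_prop) (by
      intro s t
      have := hm ((1 - s) • x + s • y) ((1 - t) • x + t • y)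
      have e : (1 / 2 : ℝ) • ((1 - s) • x + s • y + ((1 - t) • x + t • y)) =
          (1 - (s + t) / 2) • x + ((s + t) / 2) • y := by
        module
      rw [e] at this
      linarith) (by simp) (by simp) ⟨hq, by linarith⟩
  simp only [smul_eq_mul]
  linarith

/-! ## Gaussians -/

/-- Gaussian on the slice. -/
noncomputable def gs (c : ℝ) (y : ℝ × (Fin m → ℝ)) : ℝ :=
  exp (-c * y.1 ^ 2) * ∏ i, exp (-c * y.2 i ^ 2)

theorem gs_eq (c : ℝ) (y : ℝ × (Fin m → ℝ)) :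
    gs c y = exp (-c * (y.1 ^ 2 + ∑ i, y.2 i ^ 2)) := by
  rw [gs, ← Real.exp_sum, ← Real.exp_add]
  congr 1
  rw [mul_add, Finset.mul_sum]

theorem gs_nonneg (c : ℝ) (y : ℝ × (Fin m → ℝ)) : 0 ≤ gs c y := by
  rw [gs_eq]; exact (exp_pos _).le

theorem integrable_gs {c : ℝ} (hc : 0 < c) : Integrable (gs c : ℝ × (Fin m → ℝ) → ℝ) := by
  have h1 : Integrable (fun x : ℝ => exp (-c * x ^ 2)) := integrable_exp_neg_mul_sq hc
  have h2 : Integrable (fun z : Fin m → ℝ => ∏ i, exp (-c * z i ^ 2)) :=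
    Integrable.fintype_prod (fun _ => h1)
  exact h1.mul_prod h2

theorem sq_mul_exp_le {a : ℝ} (ha : 0 < a) {q r : ℝ} (_hq : 0 ≤ q) (hqr : q ≤ r) :
    q * exp (-a * r) ≤ (2 / a) * exp (-(a / 2) * r) := by
  have h1 : a / 2 * q ≤ exp (a / 2 * r) := by
    have := add_one_le_exp (a / 2 * r)
    nlinarith [mul_le_mul_of_nonneg_left hqr (by positivity : 0 ≤ a / 2)]
  have h2 : exp (-a * r) = exp (-(a / 2) * r) * exp (-(a / 2) * r) := by
    rw [← Real.exp_add]; congr 1; ring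
  have h3 : exp (a / 2 * r) * exp (-(a / 2) * r) = 1 := by
    rw [← Real.exp_add, ← Real.exp_zero]; congr 1; ring
  have h4 : 0 < exp (-(a / 2) * r) := exp_pos _
  rw [h2]
  have h5 : a / 2 * (q * (exp (-(a / 2) * r) * exp (-(a / 2) * r))) ≤ exp (-(a / 2) * r) := by
    calc a / 2 * (q * (exp (-(a / 2) * r) * exp (-(a / 2) * r)))
        = (a / 2 * q) * (exp (-(a / 2) * r) * exp (-(a / 2) * r)) := by ring
      _ ≤ exp (a / 2 * r) * (exp (-(a / 2) * r) * exp (-(a / 2) * r)) := by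
          apply mul_le_mul_of_nonneg_right h1 (by positivity)
      _ = (exp (a / 2 * r) * exp (-(a / 2) * r)) * exp (-(a / 2) * r) := by ring
      _ = exp (-(a / 2) * r) := by rw [h3, one_mul]
  have h6 : q * (exp (-(a / 2) * r) * exp (-(a / 2) * r)) =
      (2 / a) * (a / 2 * (q * (exp (-(a / 2) * r) * exp (-(a / 2) * r)))) := by
    field_simp
  rw [h6]
  exact mul_le_mul_of_nonneg_left h5 (by positivity)

theorem exp_le_half {a : ℝ} (ha : 0 < a) {r : ℝ} (hr : 0 ≤ r) :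
    exp (-a * r) ≤ exp (-(a / 2) * r) := by
  apply exp_le_exp.2
  nlinarith

/-! ## The half-space moments -/

variable (b : OrthonormalBasis (Fin (m + 2)) ℝ (E (m + 2))) (Ψ : E (m + 2) → ℝ)

/-- The integrand. -/
noncomputable def W (s x : ℝ) (y : ℝ × (Fin m → ℝ)) : ℝ :=
  (max (y.1 - x) 0) ^ 2 * exp (-Ψ (slc b (s, y)))

/-- The half-space second moment. -/
noncomputable def P (s x : ℝ) : ℝ := ∫ y, W b Ψ s x y

theorem W_nonneg (s x : ℝ) (y : ℝ × (Fin m → ℝ)) : 0 ≤ W b Ψ s x y := by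
  unfold W; positivity

variable {Ψ} {a a' : ℝ}

theorem exp_slc_le (hw : Wt Ψ a a') (s : ℝ) (y : ℝ × (Fin m → ℝ)) :
    exp (-Ψ (slc b (s, y))) ≤ exp (-a * (y.1 ^ 2 + ∑ i, y.2 i ^ 2)) := by
  apply exp_le_exp.2
  have h := hw.lo (slc b (s, y))
  rw [norm_slc_sq] at h
  simp only at h
  nlinarith [mul_nonneg hw.apos.le (sq_nonneg s)]

theorem W_le (hw : Wt Ψ a a') (s x : ℝ) (y : ℝ × (Fin m → ℝ)) :
    W b Ψ s x y ≤ (4 / a + 2 * x ^ 2) * gs (a / 2) y := by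
  have ha := hw.apos
  have hr : y.1 ^ 2 ≤ y.1 ^ 2 + ∑ i, y.2 i ^ 2 := by
    have : 0 ≤ ∑ i, y.2 i ^ 2 := Finset.sum_nonneg (fun i _ => sq_nonneg _)
    linarith
  have h1 : (max (y.1 - x) 0) ^ 2 ≤ 2 * y.1 ^ 2 + 2 * x ^ 2 := by
    rcases le_total (y.1 - x) 0 with h | h
    · rw [max_eq_right h]; nlinarith [sq_nonneg y.1, sq_nonneg x]
    · rw [max_eq_left h]; nlinarith [sq_nonneg (y.1 + x)]
  have h2 := exp_slc_le b hw s y
  have h3 := sq_mul_exp_le ha (sq_nonneg y.1) hr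
  have h4 : exp (-a * (y.1 ^ 2 + ∑ i, y.2 i ^ 2)) ≤ exp (-(a / 2) * (y.1 ^ 2 + ∑ i, y.2 i ^ 2)) :=
    exp_le_half ha ((sq_nonneg _).trans hr)
  rw [gs_eq]
  unfold W
  calc (max (y.1 - x) 0) ^ 2 * exp (-Ψ (slc b (s, y)))
      ≤ (2 * y.1 ^ 2 + 2 * x ^ 2) * exp (-a * (y.1 ^ 2 + ∑ i, y.2 i ^ 2)) := by gcongr
    _ = 2 * (y.1 ^ 2 * exp (-a * (y.1 ^ 2 + ∑ i, y.2 i ^ 2))) +
        2 * x ^ 2 * exp (-a * (y.1 ^ 2 + ∑ i, y.2 i ^ 2)) := by ring
    _ ≤ 2 * ((2 / a) * exp (-(a / 2) * (y.1 ^ 2 + ∑ i, y.2 i ^ 2))) +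
        2 * x ^ 2 * exp (-(a / 2) * (y.1 ^ 2 + ∑ i, y.2 i ^ 2)) := by gcongr
    _ = (4 / a + 2 * x ^ 2) * exp (-(a / 2) * (y.1 ^ 2 + ∑ i, y.2 i ^ 2)) := by ring

theorem continuous_W (hw : Wt Ψ a a') :
    Continuous (fun p : (ℝ × ℝ) × (ℝ × (Fin m → ℝ)) => W b Ψ p.1.1 p.1.2 p.2) := by
  unfold W
  have h1 : Continuous (fun p : (ℝ × ℝ) × (ℝ × (Fin m → ℝ)) => slc b (p.1.1, p.2)) :=
    (continuous_slc b).comp (by fun_prop)
  have h2 := hw.cont.comp h1
  have h3 : Continuous (fun p : (ℝ × ℝ) × (ℝ × (Fin m → ℝ)) => Ψ (slc b (p.1.1, p.2))) := h2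
  exact (by fun_prop : Continuous (fun p : (ℝ × ℝ) × (ℝ × (Fin m → ℝ)) =>
    (max (p.2.1 - p.1.2) 0) ^ 2)).mul (Real.continuous_exp.comp h3.neg)

theorem continuous_W_right (hw : Wt Ψ a a') (s x : ℝ) : Continuous (W b Ψ s x) :=
  (continuous_W b hw).comp (by fun_prop : Continuous (fun y : ℝ × (Fin m → ℝ) => ((s, x), y)))

theorem integrable_W (hw : Wt Ψ a a') (s x : ℝ) : Integrable (W b Ψ s x) := by
  have ha := hw.apos
  refine Integrable.mono' ((integrable_gs (half_pos ha)).const_mul (4 / a + 2 * x ^ 2))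
    (continuous_W_right b hw s x).aestronglyMeasurable (Eventually.of_forall fun y => ?_)
  rw [norm_of_nonneg (W_nonneg b Ψ s x y)]
  exact W_le b hw s x y

theorem continuous_P (hw : Wt Ψ a a') : Continuous (fun p : ℝ × ℝ => P b Ψ p.1 p.2) := by
  have ha := hw.apos
  rw [continuous_iff_continuousAt]
  intro p
  apply continuousAt_of_dominated (bound := fun y => (4 / a + 2 * (|p.2| + 1) ^ 2) * gs (a / 2) y)
  · exact Eventually.of_forall fun q => (continuous_W_right b hw q.1 q.2).aestronglyMeasurable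
  · have h1 : ∀ᶠ q : ℝ × ℝ in 𝓝 p, |q.2| < |p.2| + 1 := by
      have : Continuous (fun q : ℝ × ℝ => |q.2|) := by fun_prop
      exact this.continuousAt.eventually (gt_mem_nhds (by linarith))
    filter_upwards [h1] with q hq
    refine Eventually.of_forall fun y => ?_
    rw [norm_of_nonneg (W_nonneg b Ψ _ _ y)]
    refine (W_le b hw q.1 q.2 y).trans ?_
    apply mul_le_mul_of_nonneg_right _ (gs_nonneg _ _)
    have : q.2 ^ 2 ≤ (|p.2| + 1) ^ 2 := by
      rw [← sq_abs q.2]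
      exact pow_le_pow_left₀ (abs_nonneg _) hq.le 2
    linarith
  · exact (integrable_gs (half_pos ha)).const_mul _
  · refine Eventually.of_forall fun y => ?_
    exact ((continuous_W b hw).comp
      (by fun_prop : Continuous (fun q : ℝ × ℝ => (q, y)))).continuousAt

theorem integral_pos_of_cont {f : ℝ × (Fin m → ℝ) → ℝ} (hf : Continuous f) (h0 : ∀ y, 0 ≤ f y)
    (hi : Integrable f) {y : ℝ × (Fin m → ℝ)} (hy : 0 < f y) : 0 < ∫ y, f y := by
  rw [integral_pos_iff_support_of_nonneg h0 hi]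
  have hopen : IsOpen (Function.support f) := hf.isOpen_support
  exact hopen.measure_pos _ ⟨y, hy.ne'⟩

theorem P_pos (hw : Wt Ψ a a') (s x : ℝ) : 0 < P b Ψ s x := by
  refine integral_pos_of_cont (continuous_W_right b hw s x) (W_nonneg b Ψ s x)
    (integrable_W b hw s x) (y := (x + 1, 0)) ?_
  unfold W
  have : max (((x + 1, 0) : ℝ × (Fin m → ℝ)).1 - x) 0 = 1 := by simp
  rw [this]
  positivity

theorem P_lt (hw : Wt Ψ a a') : P b Ψ 0 0 < P b Ψ 0 (-1) := by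
  have h : 0 < ∫ y, (W b Ψ 0 (-1) y - W b Ψ 0 0 y) := by
    refine integral_pos_of_cont
      ((continuous_W_right b hw 0 (-1)).sub (continuous_W_right b hw 0 0)) ?_
      ((integrable_W b hw 0 (-1)).sub (integrable_W b hw 0 0)) (y := (0, 0)) ?_
    · intro y
      unfold W
      rw [← sub_mul]
      apply mul_nonneg _ (exp_pos _).le
      rw [sub_nonneg]
      apply pow_le_pow_left₀ (le_max_right _ _)
      apply max_le_max _ le_rfl
      linarith
    · unfold W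
      have h1 : max ((((0 : ℝ), (0 : Fin m → ℝ)) : ℝ × (Fin m → ℝ)).1 - (-1)) 0 = 1 := by simp
      have h2 : max ((((0 : ℝ), (0 : Fin m → ℝ)) : ℝ × (Fin m → ℝ)).1 - 0) 0 = 0 := by simp
      rw [h1, h2]
      have := exp_pos (-Ψ (slc b (0, ((0 : ℝ), (0 : Fin m → ℝ)))))
      simpa using this
  rw [integral_sub (integrable_W b hw 0 (-1)) (integrable_W b hw 0 0)] at h
  unfold P
  linarith

/-! ## Prekopa-Leindler, real version -/

theorem pl_real {f g h : ℝ × (Fin m → ℝ) → ℝ} (hf : Continuous f) (hg : Continuous g)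
    (hh : Continuous h) (f0 : ∀ y, 0 ≤ f y) (g0 : ∀ y, 0 ≤ g y) (h0 : ∀ y, 0 ≤ h y)
    (fi : Integrable f) (gi : Integrable g) (hi : Integrable h)
    (H : ∀ x y, f x * g y ≤ h ((1 / 2 : ℝ) • (x + y)) ^ 2) :
    (∫ x, f x) * (∫ x, g x) ≤ (∫ x, h x) ^ 2 := by
  have key := pl_prod (f := fun y => ENNReal.ofReal (f y)) (g := fun y => ENNReal.ofReal (g y))
    (h := fun y => ENNReal.ofReal (h y)) hf.measurable.ennreal_ofReal hg.measurable.ennreal_ofReal
    hh.measurable.ennreal_ofReal (by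
      intro x y
      rw [← ENNReal.ofReal_mul (f0 x), ← ENNReal.ofReal_pow (h0 _)]
      exact ENNReal.ofReal_le_ofReal (H x y))
  rw [← ofReal_integral_eq_lintegral_ofReal fi (Eventually.of_forall f0),
    ← ofReal_integral_eq_lintegral_ofReal gi (Eventually.of_forall g0),
    ← ofReal_integral_eq_lintegral_ofReal hi (Eventually.of_forall h0),
    ← ENNReal.ofReal_mul (integral_nonneg f0), ← ENNReal.ofReal_pow (integral_nonneg h0)] at key
  exact (ENNReal.ofReal_le_ofReal_iff (by positivity)).1 key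

theorem max_mul_max_le (u v : ℝ) : max u 0 * max v 0 ≤ (max ((u + v) / 2) 0) ^ 2 := by
  rcases le_total u 0 with hu | hu
  · rw [max_eq_right hu, zero_mul]; positivity
  rcases le_total v 0 with hv | hv
  · rw [max_eq_right hv, mul_zero]; positivity
  rw [max_eq_left hu, max_eq_left hv, max_eq_left (by positivity)]
  nlinarith [sq_nonneg (u - v)]

theorem P_mul_le (hw : Wt Ψ a a') {α : ℝ} (hα : 0 ≤ α) (hsd : ∀ x z, α * ‖z‖ ^ 2 ≤ sd Ψ x z)
    (s₁ x₁ s₂ x₂ : ℝ) :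
    P b Ψ s₁ x₁ * P b Ψ s₂ x₂ ≤
      (exp (-(α * (s₁ - s₂) ^ 2 / 8)) * P b Ψ ((s₁ + s₂) / 2) ((x₁ + x₂) / 2)) ^ 2 := by
  have e0 : exp (-(α * (s₁ - s₂) ^ 2 / 8)) * P b Ψ ((s₁ + s₂) / 2) ((x₁ + x₂) / 2) =
      ∫ y, exp (-(α * (s₁ - s₂) ^ 2 / 8)) * W b Ψ ((s₁ + s₂) / 2) ((x₁ + x₂) / 2) y :=
    (integral_const_mul _ _).symm
  rw [e0]
  unfold P
  refine pl_real (continuous_W_right b hw s₁ x₁) (continuous_W_right b hw s₂ x₂)
    ((continuous_W_right b hw _ _).const_mul _)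
    (W_nonneg b Ψ _ _) (W_nonneg b Ψ _ _) (fun y => mul_nonneg (exp_pos _).le (W_nonneg b Ψ _ _ _))
    (integrable_W b hw _ _) (integrable_W b hw _ _) ((integrable_W b hw _ _).const_mul _) ?_
  intro y y'
  unfold W
  have h1 := max_mul_max_le (y.1 - x₁) (y'.1 - x₂)
  have e1 : (y.1 - x₁ + (y'.1 - x₂)) / 2 = ((1 / 2 : ℝ) • (y + y')).1 - (x₁ + x₂) / 2 := by
    simp only [Prod.smul_fst, Prod.fst_add, smul_eq_mul]
    ring
  rw [e1] at h1
  have h2 := hsd (slc b ((s₁ + s₂) / 2, (1 / 2 : ℝ) • (y + y')))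
    (slc b ((s₁ - s₂) / 2, (1 / 2 : ℝ) • (y - y')))
  have e2 : slc b ((s₁ + s₂) / 2, (1 / 2 : ℝ) • (y + y')) +
      slc b ((s₁ - s₂) / 2, (1 / 2 : ℝ) • (y - y')) = slc b (s₁, y) := by
    rw [← slc_add]
    congr 1
    ext
    · simp only [Prod.mk_add_mk]; ring
    · simp only [Prod.mk_add_mk, Prod.fst_add, Prod.smul_fst, Prod.fst_sub, smul_eq_mul]; ring
    · simp only [Prod.mk_add_mk, Prod.snd_add, Prod.smul_snd, Prod.snd_sub, Pi.add_apply,
        Pi.smul_apply, Pi.sub_apply, smul_eq_mul]; ring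
  have e3 : slc b ((s₁ + s₂) / 2, (1 / 2 : ℝ) • (y + y')) -
      slc b ((s₁ - s₂) / 2, (1 / 2 : ℝ) • (y - y')) = slc b (s₂, y') := by
    rw [← slc_sub]
    congr 1
    ext
    · simp only [Prod.mk_sub_mk]; ring
    · simp only [Prod.mk_sub_mk, Prod.fst_add, Prod.smul_fst, Prod.fst_sub, smul_eq_mul]; ring
    · simp only [Prod.mk_sub_mk, Prod.snd_add, Prod.smul_snd, Prod.snd_sub, Pi.add_apply,
        Pi.smul_apply, Pi.sub_apply, smul_eq_mul]; ring
  unfold sd at h2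
  rw [e2, e3, norm_slc_sq] at h2
  simp only at h2
  have h3 : α * ((s₁ - s₂) / 2) ^ 2 ≤ α * (((s₁ - s₂) / 2) ^ 2 +
      ((1 / 2 : ℝ) • (y - y')).1 ^ 2 + ∑ i, ((1 / 2 : ℝ) • (y - y')).2 i ^ 2) := by
    apply mul_le_mul_of_nonneg_left _ hα
    have : 0 ≤ ∑ i, ((1 / 2 : ℝ) • (y - y')).2 i ^ 2 := Finset.sum_nonneg (fun i _ => sq_nonneg _)
    nlinarith [sq_nonneg ((1 / 2 : ℝ) • (y - y')).1]
  have h4 : exp (-Ψ (slc b (s₁, y))) * exp (-Ψ (slc b (s₂, y'))) ≤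
      (exp (-(α * (s₁ - s₂) ^ 2 / 8)) *
        exp (-Ψ (slc b ((s₁ + s₂) / 2, (1 / 2 : ℝ) • (y + y'))))) ^ 2 := by
    rw [← Real.exp_add, ← Real.exp_add, ← Real.exp_nat_mul]
    apply exp_le_exp.2
    push_cast
    nlinarith
  calc (max (y.1 - x₁) 0) ^ 2 * exp (-Ψ (slc b (s₁, y))) *
        ((max (y'.1 - x₂) 0) ^ 2 * exp (-Ψ (slc b (s₂, y'))))
      = (max (y.1 - x₁) 0 * max (y'.1 - x₂) 0) ^ 2 *
        (exp (-Ψ (slc b (s₁, y))) * exp (-Ψ (slc b (s₂, y')))) := by ring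
    _ ≤ ((max (((1 / 2 : ℝ) • (y + y')).1 - (x₁ + x₂) / 2) 0) ^ 2) ^ 2 *
        (exp (-(α * (s₁ - s₂) ^ 2 / 8)) *
          exp (-Ψ (slc b ((s₁ + s₂) / 2, (1 / 2 : ℝ) • (y + y'))))) ^ 2 := by
        gcongr
    _ = _ := by ring

theorem mp_neg : MeasurePreserving (fun y : ℝ × (Fin m → ℝ) => -y) volume volume :=
  (Measure.measurePreserving_neg (volume : Measure ℝ)).prod
    (Measure.measurePreserving_neg (volume : Measure (Fin m → ℝ)))

instance instNeg : (volume : Measure (ℝ × (Fin m → ℝ))).IsNegInvariant :=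
  ⟨mp_neg.map_eq⟩

theorem P_neg (hw : Wt Ψ a a') (s x : ℝ) :
    P b Ψ (-s) (-x) = ∫ y : ℝ × (Fin m → ℝ), (max (x - y.1) 0) ^ 2 * exp (-Ψ (slc b (s, y))) := by
  unfold P
  rw [← integral_neg_eq_self]
  congr 1
  ext y
  unfold W
  have e1 : slc b (-s, -y) = - slc b (s, y) := by
    rw [← slc_neg]; rfl
  rw [e1, hw.even]
  congr 3
  simp only [Prod.fst_neg]
  ring

theorem P_add (hw : Wt Ψ a a') (s x : ℝ) :
    P b Ψ s x + P b Ψ (-s) (-x) =
      ∫ y : ℝ × (Fin m → ℝ), (y.1 - x) ^ 2 * exp (-Ψ (slc b (s, y))) := by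
  have hi : Integrable
      (fun y : ℝ × (Fin m → ℝ) => (max (x - y.1) 0) ^ 2 * exp (-Ψ (slc b (s, y)))) := by
    have h := (integrable_W b hw (-s) (-x)).comp_neg
    refine h.congr (Eventually.of_forall fun y => ?_)
    simp only
    unfold W
    have e1 : slc b (-s, -y) = - slc b (s, y) := by
      rw [← slc_neg]; rfl
    rw [e1, hw.even]
    congr 3
    simp only [Prod.fst_neg]
    ring
  rw [P_neg b hw, P, ← integral_add (integrable_W b hw s x) hi]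
  congr 1
  ext y
  unfold W
  rw [← add_mul]
  congr 1
  rcases le_total (y.1 - x) 0 with h | h
  · rw [max_eq_right h, max_eq_left (by linarith)]; ring
  · rw [max_eq_left h, max_eq_right (by linarith : x - y.1 ≤ 0)]; ring

theorem integrable_all (hw : Wt Ψ a a') (τ : ℝ) :
    Integrable (fun p : ℝ × ℝ × (Fin m → ℝ) => (p.2.1 - τ * p.1) ^ 2 * exp (-Ψ (slc b p))) := by
  have ha := hw.apos
  have h1 : Integrable (fun x : ℝ => exp (-(a / 2) * x ^ 2)) :=
    integrable_exp_neg_mul_sq (half_pos ha)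
  have h2 := (h1.mul_prod (integrable_gs (m := m) (half_pos ha))).const_mul (4 / a * (1 + τ ^ 2))
  refine Integrable.mono' h2 ?_ (Eventually.of_forall fun p => ?_)
  · have h3 : Continuous (fun p : ℝ × ℝ × (Fin m → ℝ) => Ψ (slc b p)) :=
      hw.cont.comp (continuous_slc b)
    exact ((by fun_prop : Continuous
      (fun p : ℝ × ℝ × (Fin m → ℝ) => (p.2.1 - τ * p.1) ^ 2)).mul
        (Real.continuous_exp.comp h3.neg)).aestronglyMeasurable
  · rw [norm_of_nonneg (by positivity)]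
    set r := p.1 ^ 2 + p.2.1 ^ 2 + ∑ i, p.2.2 i ^ 2 with hr
    have hsum : 0 ≤ ∑ i, p.2.2 i ^ 2 := Finset.sum_nonneg (fun i _ => sq_nonneg _)
    have e1 : exp (-(a / 2) * p.1 ^ 2) * gs (a / 2) p.2 = exp (-(a / 2) * r) := by
      rw [gs_eq, ← Real.exp_add]; congr 1; rw [hr]; ring
    rw [e1]
    have h4 : exp (-Ψ (slc b p)) ≤ exp (-a * r) := by
      apply exp_le_exp.2
      have := hw.lo (slc b p)
      rw [norm_slc_sq] at this
      rw [hr]; linarith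
    have h5 : (p.2.1 - τ * p.1) ^ 2 ≤ 2 * p.2.1 ^ 2 + 2 * τ ^ 2 * p.1 ^ 2 := by
      nlinarith [sq_nonneg (p.2.1 + τ * p.1)]
    have h6 := sq_mul_exp_le ha (sq_nonneg p.2.1) (r := r) (by rw [hr]; nlinarith [sq_nonneg p.1])
    have h7 := sq_mul_exp_le ha (sq_nonneg p.1) (r := r) (by rw [hr]; nlinarith [sq_nonneg p.2.1])
    calc (p.2.1 - τ * p.1) ^ 2 * exp (-Ψ (slc b p))
        ≤ (2 * p.2.1 ^ 2 + 2 * τ ^ 2 * p.1 ^ 2) * exp (-a * r) := by gcongr
      _ = 2 * (p.2.1 ^ 2 * exp (-a * r)) + 2 * τ ^ 2 * (p.1 ^ 2 * exp (-a * r)) := by ring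
      _ ≤ 2 * ((2 / a) * exp (-(a / 2) * r)) + 2 * τ ^ 2 * ((2 / a) * exp (-(a / 2) * r)) := by
          gcongr
      _ = 4 / a * (1 + τ ^ 2) * exp (-(a / 2) * r) := by ring

/-- The linear shear. -/
theorem exists_shear (hw : Wt Ψ a a') {α : ℝ} (hα : 0 ≤ α) (hsd : ∀ x z, α * ‖z‖ ^ 2 ≤ sd Ψ x z) :
    ∃ τ : ℝ, ∀ s, P b Ψ s (τ * s) ≤ P b Ψ 0 0 * exp (-(α / 2) * s ^ 2) := by
  set L : ℝ × ℝ → ℝ := fun p => log (P b Ψ p.1 p.2) + α / 2 * p.1 ^ 2 with hL
  have hLc : Continuous L := by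
    have h1 : Continuous (fun p : ℝ × ℝ => log (P b Ψ p.1 p.2)) :=
      (continuous_P b hw).log (fun p => (P_pos b hw _ _).ne')
    fun_prop
  have hLm : ∀ x y, L x + L y ≤ 2 * L ((1 / 2 : ℝ) • (x + y)) := by
    intro x y
    have h1 := P_mul_le b hw hα hsd x.1 x.2 y.1 y.2
    have h2 := log_le_log (mul_pos (P_pos b hw x.1 x.2) (P_pos b hw y.1 y.2)) h1
    rw [log_mul (P_pos b hw _ _).ne' (P_pos b hw _ _).ne', log_pow,
      log_mul (exp_pos _).ne' (P_pos b hw _ _).ne', log_exp] at h2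
    have e1 : ((1 / 2 : ℝ) • (x + y)).1 = (x.1 + y.1) / 2 := by
      simp only [Prod.smul_fst, Prod.fst_add, smul_eq_mul]; ring
    have e2 : ((1 / 2 : ℝ) • (x + y)).2 = (x.2 + y.2) / 2 := by
      simp only [Prod.smul_snd, Prod.snd_add, smul_eq_mul]; ring
    simp only [hL]
    rw [e1, e2]
    push_cast at h2
    nlinarith
  have hconc := concaveOn_of_midpoint hLc hLm
  have hconv : Convex ℝ {p ∈ (univ : Set (ℝ × ℝ)) | L 0 < L p} := hconc.convex_gt (L 0)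
  have hopen : IsOpen {p ∈ (univ : Set (ℝ × ℝ)) | L 0 < L p} := by
    have : {p ∈ (univ : Set (ℝ × ℝ)) | L 0 < L p} = {p : ℝ × ℝ | L 0 < L p} := by ext; simp
    rw [this]
    exact isOpen_lt continuous_const hLc
  have h0 : (0 : ℝ × ℝ) ∉ {p ∈ (univ : Set (ℝ × ℝ)) | L 0 < L p} := by simp
  obtain ⟨f, hf⟩ := geometric_hahn_banach_open_point hconv hopen h0
  rw [map_zero] at hf
  set q := f (0, 1) with hq
  set p := f (1, 0) with hp
  have hlin : ∀ s x : ℝ, f (s, x) = s * p + x * q := by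
    intro s x
    have : ((s, x) : ℝ × ℝ) = s • ((1, 0) : ℝ × ℝ) + x • ((0, 1) : ℝ × ℝ) := by
      ext <;> simp
    rw [this, map_add, map_smul, map_smul, smul_eq_mul, smul_eq_mul]
  have hqpos : 0 < q := by
    have h1 : L 0 < L (0, -1) := by
      simp only [hL]
      have := log_lt_log (P_pos b hw 0 0) (P_lt b hw)
      simpa using this
    have h2 := hf (0, -1) ⟨mem_univ _, h1⟩
    rw [hlin] at h2
    linarith
  refine ⟨-(p / q), fun s => ?_⟩
  have h1 : ¬ L 0 < L (s, -(p / q) * s) := by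
    intro h
    have h2 := hf (s, -(p / q) * s) ⟨mem_univ _, h⟩
    rw [hlin] at h2
    have : s * p + -(p / q) * s * q = 0 := by field_simp; ring
    rw [this] at h2
    exact lt_irrefl _ h2
  push Not at h1
  simp only [hL, Prod.fst_zero, Prod.snd_zero] at h1
  have h2 : log (P b Ψ s (-(p / q) * s)) ≤ log (P b Ψ 0 0 * exp (-(α / 2) * s ^ 2)) := by
    rw [log_mul (P_pos b hw _ _).ne' (exp_pos _).ne', log_exp]
    nlinarith
  exact (log_le_log_iff (P_pos b hw _ _) (mul_pos (P_pos b hw _ _) (exp_pos _))).1 h2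

theorem two_P_zero (hw : Wt Ψ a a') : 2 * P b Ψ 0 0 = JJ Ψ b := by
  have h := P_add b hw 0 0
  rw [neg_zero] at h
  rw [two_mul, h]
  unfold JJ
  simp only [sub_zero]

end Pool.Agent.Helper84.HV

namespace Pool.Agent.Helper84.HV

open Pool.Agent.Helper73.HV

/-- The lower slice bound. -/
theorem slice_lo : S_slice_lo := by
  intro m Ψ a a' α Z hw hα hsd hiso bs
  obtain ⟨τ, hτ⟩ := exists_shear bs hw hα.le hsd
  have hZ : 0 ≤ Z := by
    have h := hiso (bs 0)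
    have h1 : 0 ≤ ∫ x, (inner ℝ (bs 0) x) ^ 2 * exp (-Ψ x) :=
      integral_nonneg fun x => by positivity
    rw [h] at h1
    simpa using h1
  set u : E (m + 2) := bs 1 - τ • bs 0 with hu
  have hin : ∀ p : ℝ × ℝ × (Fin m → ℝ), inner ℝ u (slc bs p) = p.2.1 - τ * p.1 := by
    intro p
    rw [hu, inner_sub_left, inner_smul_left, inner_slc_zero, inner_slc_one]
    simp
  have hnu : ‖u‖ ^ 2 = 1 + τ ^ 2 := by
    rw [← real_inner_self_eq_norm_sq, hu]
    simp only [inner_sub_left, inner_sub_right, inner_smul_left, inner_smul_right]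
    have h01 : inner ℝ (bs 0) (bs 1) = 0 := bs.orthonormal.2 (by simp)
    have h10 : inner ℝ (bs 1) (bs 0) = 0 := bs.orthonormal.2 (by simp)
    have h00 : inner ℝ (bs 0) (bs 0) = 1 := by
      rw [real_inner_self_eq_norm_sq, bs.norm_eq_one]; norm_num
    have h11 : inner ℝ (bs 1) (bs 1) = 1 := by
      rw [real_inner_self_eq_norm_sq, bs.norm_eq_one]; norm_num
    rw [h01, h10, h00, h11]
    simp
    ring
  have e1 : Z * (1 + τ ^ 2) =
      ∫ s : ℝ, ∫ y : ℝ × (Fin m → ℝ), (y.1 - τ * s) ^ 2 * exp (-Ψ (slc bs (s, y))) := by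
    rw [← hnu, ← hiso u, integral_slc bs]
    simp only [hin]
    rw [← integral_prod (f := fun p : ℝ × ℝ × (Fin m → ℝ) =>
      (p.2.1 - τ * p.1) ^ 2 * exp (-Ψ (slc bs p))) (integrable_all bs hw τ)]
    rfl
  have h2 : ∀ s : ℝ, ∫ y : ℝ × (Fin m → ℝ), (y.1 - τ * s) ^ 2 * exp (-Ψ (slc bs (s, y))) ≤
      JJ Ψ bs * exp (-(α / 2) * s ^ 2) := by
    intro s
    rw [← P_add bs hw s (τ * s)]
    have h3 := hτ s
    have h4 := hτ (-s)
    rw [mul_neg, neg_sq] at h4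
    rw [← two_P_zero bs hw]
    linarith
  have hint1 : Integrable (fun s : ℝ => ∫ y : ℝ × (Fin m → ℝ),
      (y.1 - τ * s) ^ 2 * exp (-Ψ (slc bs (s, y)))) :=
    (integrable_all bs hw τ).integral_prod_left
  have hint2 : Integrable (fun s : ℝ => JJ Ψ bs * exp (-(α / 2) * s ^ 2)) :=
    (integrable_exp_neg_mul_sq (half_pos hα)).const_mul _
  have h5 := integral_mono hint1 hint2 h2
  rw [← e1, integral_const_mul, integral_gaussian] at h5
  have hJ : 0 ≤ JJ Ψ bs := by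
    rw [← two_P_zero bs hw]
    have := P_pos bs hw 0 0
    positivity
  have h6 : Z ≤ JJ Ψ bs * √(π / (α / 2)) := by
    refine le_trans ?_ h5
    nlinarith [mul_nonneg hZ (sq_nonneg τ)]
  have h7 : √α * √(π / (α / 2)) = √(2 * π) := by
    rw [← sqrt_mul hα.le]
    congr 1
    field_simp
  calc √α * Z ≤ √α * (JJ Ψ bs * √(π / (α / 2))) := by gcongr
    _ = (√α * √(π / (α / 2))) * JJ Ψ bs := by ring
    _ = √(2 * π) * JJ Ψ bs := by rw [h7]

end Pool.Agent.Helper84.HV
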